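import Pool.Agent.Lib.MP_fc2a59_co.ALM.T.Stm

set_option autoImplicit false

/-!
# Project ALM, section K: few pairings with small cuts

Pieces: p_Kd, p_Kc, p_Kn, p_K.
-/

namespace Pool.Agent.ALM

open Finset Filter Topology
open scoped Classical

/-- number of pairs leaving `S` -/
noncomputable def cu {V : Type} [Fintype V] (σ : Pt V → Pt V) (S : Finset V) : ℕ :=
  (univ.filter fun x : Pt V => x.1 ∈ S ∧ (σ x).1 ∉ S).card

/-- SMALL CUTS.

Proof.  Let `S` violate `C4`: both `S` and `Sᶜ` contain the support of a cycle, and the number of adjacent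
`(u, w)`, `u ∈ S`, `w ∉ S` is `≤ 3`.  This number is `cu σ S` (`Simp`: the map `(u, i) ↦ (u, (σ (u, i)).1)` is a
bijection from the points of `S` paired outside to these pairs), and `cu σ Sᶜ = cu σ S` (`σ` maps one set of
points onto the other).  CLAIM: a set `S` which contains the support of a cycle and has `cu σ S ≤ 3` has at
least 5 elements.  The claim for `S` and `Sᶜ` gives the result: take the smaller one of the two.

Proof of the claim.  Let `q` be the cycle, its length `L` is the number of vertices on it, `3 ≤ L ≤ |S|`.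
No triangles: if `u, v, w` are pairwise adjacent in `gr σ` then `σ (u, b0) = (v, a1)`, `σ (v, b1) = (w, a2)`,
`σ (w, b2) = (u, a0)`, and `a0 ≠ b0` because `(σ (u, a0)).1 = w ≠ v`, in the same way `a1 ≠ b1`, `a2 ≠ b2`, so
`cyF ![u, v, w] ![a0, a1, a2] ![b0, b1, b2] ∈ cyc V 3` is contained in `σ` and `X 3 σ ≠ 0`.  So `L ≥ 4` and
`|S| ≥ 4`.  If `|S| = 4` then `L = 4`, the four vertices of `S` form a 4-cycle `v0 v1 v2 v3`, and `v0 v2`, `v1 v3`
are not adjacent (no triangles).  Every vertex of `S` has 3 different neighbours (`Simp`), at most 2 of them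
in `S`, so at least one outside, and `cu σ S ≥ 4`, contradiction. -/
def S_Kd : Prop := ∀ (V : Type) [Fintype V] (σ : Pt V → Pt V), IsPr σ → Simp σ → X 3 σ = 0 →
  ¬ C4 (gr σ) → ∃ S : Finset V, 5 ≤ S.card ∧ 2 * S.card ≤ Fintype.card V ∧ cu σ S ≤ 3

/-- expected number of sets of size `s` with cut `j` -/
noncomputable def TK (m s j : ℕ) : ℝ :=
  ((2 * m).choose s : ℝ) * ((3 * s).choose j : ℝ) * ((6 * m - 3 * s).choose j : ℝ) * (j.factorial : ℝ) *
    (II ((3 * s - j) / 2) : ℝ) * (II ((6 * m - 3 * s - j) / 2) : ℝ) / (II (3 * m) : ℝ)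

/-- NUMBER OF PAIRINGS WITH GIVEN CUT.

Proof.  Fix `S` with `|S| = s` (there are `C(2m,s)`), let `P` be the points of `S` (`3s`), `Q` the other points
(`6m - 3s`).  A pairing `σ` with `cu σ S = j` is determined by: the set `P' ⊆ P` of the points paired with
`Q` (`|P'| = j`), its image `Q' ⊆ Q`, the bijection `P' → Q'` given by `σ`, and the pairings induced by `σ`
on `P \ P'` and on `Q \ Q'`.  Number of possibilities (`S_pr`): at most
`C(3s,j) C(6m-3s,j) j! II((3s-j)/2) II((6m-3s-j)/2)` if `3s + j` is even (`3s ≥ j` if there is any), and none if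
`3s + j` is odd (a set with a pairing has an even number of elements).  (`II (3m) > 0`.) -/
def S_Kc : Prop := ∀ m s j : ℕ, 1 ≤ m → s ≤ m → j ≤ 3 →
  ∑ S ∈ powersetCard s (univ : Finset (Fin (2 * m))),
    (((prs (Pt (Fin (2 * m)))).filter fun σ => cu σ S = j).card : ℝ) ≤
    (if (3 * s + j) % 2 = 0 then TK m s j * (II (3 * m) : ℝ) else 0)

/-- SUM OF THE EXPECTATIONS.

Proof.  Let `5 ≤ s ≤ m`, `j ≤ 3`, `s - j = 2k` (same parity, so `k ≥ 1`), `a = (3s-j)/2 = s + k`,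
`b = (6m-3s-j)/2`, `a + b + j = 3m`.
(1) `(2n)! = 2^n n! II n`, so `II a II b/II (a+b) = C(a+b,a)/C(2a+2b,2a) ≤ 1/C(a+b,a)`, because
`C(2n,2a) ≥ C(n,a)^2` (Vandermonde `Nat.add_choose_eq`, one term).
(2) `II (3m) = II (a+b) ∏_{i<j} (2(a+b+i)+1) ≥ II (a+b) m^j` (`2(a+b)+1 = 6m-2j+1 ≥ m`).
(3) `C(3s,j) C(6m-3s,j) j! ≤ (3s)^j (6m)^j`.
(4) `C(3m-j,a) = C(2m+(m-j), s+k) ≥ C(2m,s) C(m-j,k)` (Vandermonde, one term).
So `TK m s j ≤ (18 s)^j/C(m-j,k)`, `s = 2k+j`, `2k ≤ m-j`.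
(5) `C(n,k) = (n/k) C(n-1,k-1) ≥ (n/k) C(2k-1,k-1) ≥ (n/k) 2^(k-1)` for `1 ≤ k`, `2k ≤ n` (`n - 1 ≥ 2k - 1`,
`2 C(2k-1,k-1) = C(2k,k) ≥ 2^k`).  `m - j ≥ m/4` for `m ≥ 5`.
So `TK m s j ≤ (18(2k+3))^3 k 4/(m 2^(k-1))`, and for every `j` the values `k` belonging to different `s` are
different: the sum is at most `(4/m) * 4 ∑_k (18(2k+3))^3 k/2^(k-1)`, a convergent series.  (For `m < 5` the
sum is empty.) -/
def S_Kn : Prop := ∃ C : ℝ, ∀ m : ℕ, 1 ≤ m →
  ∑ s ∈ Icc 5 m, ∑ j ∈ range 4, (if (3 * s + j) % 2 = 0 then TK m s j else 0) ≤ C / m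

/-- FEW PAIRINGS WITH SMALL CUTS.

Proof.  `S_Kd`: for every counted `σ` there is `S` with `5 ≤ |S| = s ≤ m`, `cu σ S = j ≤ 3`; union bound over `s`,
`j`, `S`, `S_Kc` and `S_Kn`. -/
def S_K : Prop := ∃ C : ℝ, ∀ m : ℕ, 1 ≤ m →
  (((prs (Pt (Fin (2 * m)))).filter fun σ => Simp σ ∧ X 3 σ = 0 ∧ ¬ C4 (gr σ)).card : ℝ) ≤
    C / m * (II (3 * m) : ℝ)

end Pool.Agent.ALM
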