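import Pool.Agent.Lib.MP_fc2a59_co.ALM.K.Stm

set_option autoImplicit false

/-!
# Project ALM, section K, piece p_K: union bound over the small cuts
-/

namespace Pool.Agent.ALM

open Finset
open scoped Classical

theorem p_K (h1 : S_Kd) (h2 : S_Kc) (h3 : S_Kn) : S_K := by
  obtain ⟨C, hC⟩ := h3
  refine ⟨C, fun m hm => ?_⟩
  have hII : (0 : ℝ) ≤ (II (3 * m) : ℝ) := Nat.cast_nonneg _
  set B : ℕ → ℕ → Finset (Fin (2 * m)) → Finset (Pt (Fin (2 * m)) → Pt (Fin (2 * m))) :=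
    fun _ j S => (prs (Pt (Fin (2 * m)))).filter fun σ => cu σ S = j with hB
  have hsub : ((prs (Pt (Fin (2 * m)))).filter fun σ => Simp σ ∧ X 3 σ = 0 ∧ ¬ C4 (gr σ)) ⊆
      (Icc 5 m).biUnion fun s => (range 4).biUnion fun j =>
        (powersetCard s (univ : Finset (Fin (2 * m)))).biUnion fun S => B s j S := by
    intro σ hσ
    rw [mem_filter] at hσ
    obtain ⟨hp, hs, hx, hc⟩ := hσ
    have hpr : IsPr σ := by
      unfold prs at hp
      exact (mem_filter.mp hp).2
    obtain ⟨S, hS5, hSm, hcu⟩ := h1 (Fin (2 * m)) σ hpr hs hx hc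
    rw [Fintype.card_fin] at hSm
    simp only [mem_biUnion, mem_Icc, mem_range, mem_powersetCard, hB, mem_filter]
    exact ⟨S.card, ⟨hS5, by omega⟩, cu σ S, by omega, S, ⟨subset_univ _, rfl⟩, hp, rfl⟩
  have hcard : (((prs (Pt (Fin (2 * m)))).filter fun σ => Simp σ ∧ X 3 σ = 0 ∧ ¬ C4 (gr σ)).card : ℝ) ≤
      ∑ s ∈ Icc 5 m, ∑ j ∈ range 4, ∑ S ∈ powersetCard s (univ : Finset (Fin (2 * m))),
        ((B s j S).card : ℝ) := by
    have h := (card_le_card hsub).trans (card_biUnion_le.trans (sum_le_sum fun s _ =>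
      (card_biUnion_le.trans (sum_le_sum fun j _ => card_biUnion_le))))
    exact_mod_cast h
  refine hcard.trans ?_
  have hle : ∑ s ∈ Icc 5 m, ∑ j ∈ range 4, ∑ S ∈ powersetCard s (univ : Finset (Fin (2 * m))),
        ((B s j S).card : ℝ) ≤
      (∑ s ∈ Icc 5 m, ∑ j ∈ range 4, (if (3 * s + j) % 2 = 0 then TK m s j else 0)) *
        (II (3 * m) : ℝ) := by
    rw [sum_mul]
    refine sum_le_sum fun s hs => ?_
    rw [sum_mul]
    refine sum_le_sum fun j hj => ?_
    refine (h2 m s j hm (mem_Icc.mp hs).2 (by have := mem_range.mp hj; omega)).trans (le_of_eq ?_)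
    split_ifs
    · rfl
    · rw [zero_mul]
  refine hle.trans ?_
  exact mul_le_mul_of_nonneg_right (hC m hm) hII

end Pool.Agent.ALM
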