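import Pool.Agent.Lib.MP_fc2a59_co.ALM.K.Stm
import Pool.Agent.Lib.MP_fc2a59_co.ALM.T.p_DEC

set_option autoImplicit false

namespace Pool.Agent.ALM

open Finset
open scoped Classical

namespace KcX

/-- involutions with `j` fixed points -/
private noncomputable def J (X : Type) [Fintype X] (j : ℕ) : Finset (X → X) :=
  univ.filter fun ρ => Inv ρ ∧ Nat.card (Fx ρ) = j

private noncomputable def fxs {X : Type} [Fintype X] (ρ : X → X) : Finset X :=
  univ.filter fun x => ρ x = x

private lemma card_fxs {X : Type} [Fintype X] (ρ : X → X) :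
    (fxs ρ).card = Nat.card (Fx ρ) := by
  rw [fxs, Nat.card_eq_fintype_card, Fintype.card_subtype]

/-- parity -/
private lemma par {X : Type} [Fintype X] {ρ : X → X} (h : Inv ρ) :
    2 ∣ (univ.filter fun x => ρ x ≠ x).card := by
  have hi : Function.Involutive ρ := h
  have h2 : (hi.toPerm ρ) ^ 2 = 1 := by
    ext x
    rw [pow_two]
    simp only [Equiv.Perm.coe_mul, Function.comp_apply, Function.Involutive.coe_toPerm,
      Equiv.Perm.coe_one, id_eq]
    exact h x
  have h3 := Equiv.Perm.two_dvd_card_support h2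
  have h4 : (hi.toPerm ρ).support = univ.filter fun x => ρ x ≠ x := by
    ext x
    rw [Equiv.Perm.mem_support, mem_filter]
    simp
  rw [h4] at h3
  exact h3

private lemma card_split {X : Type} [Fintype X] (ρ : X → X) :
    Fintype.card X = (fxs ρ).card + (univ.filter fun x => ρ x ≠ x).card := by
  have h := Finset.card_filter_add_card_filter_not (s := (univ : Finset X)) (fun x => ρ x = x)
  rw [fxs, ← Finset.card_univ, ← h]

private lemma mem_prs' {X : Type} [Fintype X] {σ : X → X} : σ ∈ prs X ↔ IsPr σ := by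
  rw [prs, mem_filter]
  exact ⟨fun h => h.2, fun h => ⟨mem_univ _, h⟩⟩

private lemma mem_fxs {X : Type} [Fintype X] {ρ : X → X} {x : X} : x ∈ fxs ρ ↔ ρ x = x := by
  rw [fxs, mem_filter]
  exact ⟨fun h => h.2, fun h => ⟨mem_univ _, h⟩⟩

private lemma fibG (h1 : S_pr) {X : Type} [Fintype X] (P : X → Prop) [Fintype {x : X // P x}] (k : ℕ)
    (hc : Fintype.card {x : X // P x} = 2 * k) (F : Finset (X → X))
    (hF : ∀ ρ ∈ F, Inv ρ ∧ ∀ y, ρ y = y ↔ ¬ P y) :
    F.card ≤ II k := by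
  rw [← h1 {x : X // P x} k hc]
  have key : ∀ ρ : X → X, (Inv ρ ∧ ∀ y, ρ y = y ↔ ¬ P y) → ∀ x : {x : X // P x}, P (ρ x.1) := by
    rintro ρ ⟨hi, hT⟩ x
    by_contra hx
    have hx1 : ρ (ρ x.1) = ρ x.1 := (hT _).2 hx
    rw [hi x.1] at hx1
    exact (hT x.1).1 hx1.symm x.2
  have key2 : ∀ ρ : X → X, (Inv ρ ∧ ∀ y, ρ y = y ↔ ¬ P y) → ∀ x : {x : X // P x},
      (rs P ρ x).1 = ρ x.1 := by
    intro ρ h x
    rw [rs, dif_pos (key ρ h x)]
  refine Finset.card_le_card_of_injOn (fun ρ => rs P ρ) ?_ ?_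
  · intro ρ hρ
    have hρ := hF ρ (Finset.mem_coe.1 hρ)
    rw [Finset.mem_coe, mem_prs']
    refine fun x => ⟨?_, ?_⟩
    · apply Subtype.ext
      rw [key2 ρ hρ, key2 ρ hρ]
      exact hρ.1 x.1
    · intro hx
      have hx' := congrArg Subtype.val hx
      rw [key2 ρ hρ] at hx'
      exact (hρ.2 x.1).1 hx' x.2
  · intro ρ hρ ρ' hρ' he
    have hρ := hF ρ (Finset.mem_coe.1 hρ)
    have hρ' := hF ρ' (Finset.mem_coe.1 hρ')
    funext x
    by_cases hx : P x
    · have e1 := key2 ρ hρ ⟨x, hx⟩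
      have e2 := key2 ρ' hρ' ⟨x, hx⟩
      have e3 := congrArg Subtype.val (congrFun he ⟨x, hx⟩)
      simp only at e1 e2 e3
      rw [← e1, ← e2]
      exact e3
    · rw [(hρ.2 x).2 hx, (hρ'.2 x).2 hx]

/-- number of involutions with given set of fixed points -/
private lemma fib (h1 : S_pr) {X : Type} [Fintype X] (T : Finset X) (k : ℕ)
    (hk : Fintype.card X = T.card + 2 * k) :
    (univ.filter fun ρ : X → X => Inv ρ ∧ fxs ρ = T).card ≤ II k := by
  have hc : Fintype.card {x : X // x ∉ T} = 2 * k := by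
    rw [Fintype.card_subtype_compl (fun x => x ∈ T), Fintype.card_coe]
    omega
  refine fibG h1 (fun x => x ∉ T) k hc _ ?_
  intro ρ hρ
  rw [mem_filter] at hρ
  refine ⟨hρ.2.1, fun y => ?_⟩
  rw [not_not, ← hρ.2.2]
  exact mem_fxs.symm

private lemma cJ (h1 : S_pr) (X : Type) [Fintype X] (j : ℕ) :
    (J X j).card ≤ (if (Fintype.card X + j) % 2 = 0 then
      (Fintype.card X).choose j * II ((Fintype.card X - j) / 2) else 0) := by
  rcases Finset.eq_empty_or_nonempty (J X j) with h0 | ⟨ρ, hρ⟩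
  · rw [h0, Finset.card_empty]
    exact Nat.zero_le _
  rw [J, mem_filter] at hρ
  obtain ⟨-, hi, hj⟩ := hρ
  have hp := par hi
  have hs := card_split ρ
  rw [card_fxs, hj] at hs
  obtain ⟨k, hk⟩ := hp
  rw [hk] at hs
  have hpar : (Fintype.card X + j) % 2 = 0 := by omega
  have hk2 : (Fintype.card X - j) / 2 = k := by omega
  rw [if_pos hpar, hk2]
  have e1 : (J X j).card = ∑ T ∈ powersetCard j (univ : Finset X),
      ((J X j).filter fun ρ => fxs ρ = T).card := by
    refine card_eq_sum_card_fiberwise ?_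
    intro ρ hρ
    rw [Finset.mem_coe, J, mem_filter] at hρ
    rw [Finset.mem_coe, mem_powersetCard]
    refine ⟨subset_univ _, ?_⟩
    rw [card_fxs]
    exact hρ.2.2
  rw [e1]
  have e2 : ∀ T ∈ powersetCard j (univ : Finset X),
      ((J X j).filter fun ρ => fxs ρ = T).card ≤ II k := by
    intro T hT
    rw [mem_powersetCard] at hT
    refine le_trans (Finset.card_le_card ?_) (fib h1 T k (by rw [hT.2]; exact hs))
    intro ρ hρ
    rw [mem_filter, J, mem_filter] at hρ
    rw [mem_filter]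
    exact ⟨mem_univ _, hρ.1.2.1, hρ.2⟩
  refine le_trans (Finset.sum_le_sum e2) ?_
  rw [Finset.sum_const, card_powersetCard, Finset.card_univ, smul_eq_mul]

private lemma mf {A : Type} (p : A → Prop) (i : DecidablePred p) (s : Finset A) (a : A) :
    a ∈ @Finset.filter A p i s ↔ a ∈ s ∧ p a := @Finset.mem_filter A p i s a

private lemma mu {A : Type} (i : Fintype A) (a : A) : a ∈ @Finset.univ A i ↔ True :=
  ⟨fun _ => trivial, fun _ => @Finset.mem_univ A i a⟩

private lemma sumlem {A B : Type} (s : Finset A) (t : Finset B) (f : A → ℕ) (g : B → ℕ) (j : ℕ)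
    (hs : ∀ a ∈ s, f a = j) (i : ∀ a b, Decidable (f a = g b)) :
    (∑ a ∈ s, ∑ b ∈ t, @ite ℕ (f a = g b) (i a b) ((f a).factorial) 0) =
      s.card * (t.filter (fun b => g b = j)).card * j.factorial := by
  have h : ∀ a ∈ s, (∑ b ∈ t, @ite ℕ (f a = g b) (i a b) ((f a).factorial) 0) =
      (t.filter (fun b => g b = j)).card * j.factorial := by
    intro a ha
    have h1 : (∑ b ∈ t, @ite ℕ (f a = g b) (i a b) ((f a).factorial) 0) =
        ∑ b ∈ t, (if g b = j then j.factorial else 0) := by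
      apply Finset.sum_congr rfl
      intro b _
      by_cases hb : g b = j
      · rw [if_pos hb, if_pos ((hs a ha).trans hb.symm), hs a ha]
      · rw [if_neg hb, if_neg (fun h => hb (h.symm.trans (hs a ha)))]
    rw [h1, ← Finset.sum_filter, Finset.sum_const, smul_eq_mul]
  rw [Finset.sum_congr rfl h, Finset.sum_const, smul_eq_mul]
  ring

private lemma cntG {Z : Type} [Fintype Z] (P Q : Z → Prop) (hPQ : ∀ z, Q z ↔ ¬ P z) (j : ℕ) :
    ((prs Z).filter fun σ => Nat.card (Fx (rs P σ)) = j).card =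
      (J {z // P z} j).card * (J {z // Q z} j).card * j.factorial := by
  have h := p_DEC Z P Q hPQ (fun ρ => Nat.card (Fx ρ) = j) (fun _ => True)
  refine Eq.trans (congrArg Finset.card (Finset.ext fun σ => ?_)) (h.trans
    ((sumlem _ _ (fun ρ => Fintype.card (Fx ρ)) (fun ρ => Fintype.card (Fx ρ)) j ?_ _).trans ?_))
  · rw [mf, mf, and_true]
  · intro ρ hρ
    rw [mf] at hρ
    rw [← Nat.card_eq_fintype_card]
    exact hρ.2.2
  · congr 2
    · congr 1
      ext ρ
      rw [J, mf, mf, mu, mu]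
    · congr 1
      ext ρ
      rw [J, mf, mf, mf, mu, mu, Nat.card_eq_fintype_card, and_true, and_assoc]

private lemma cuFx {V : Type} [Fintype V] (σ : Pt V → Pt V) (hσ : IsPr σ) (S : Finset V)
    (P : Pt V → Prop) (hP : ∀ x, P x ↔ x.1 ∈ S) :
    cu σ S = Nat.card (Fx (rs P σ)) := by
  rw [cu, ← Fintype.card_subtype, ← Nat.card_eq_fintype_card]
  refine Nat.card_congr ⟨fun x => ⟨⟨x.1, (hP _).2 x.2.1⟩, ?_⟩,
    fun x => ⟨x.1.1, (hP _).1 x.1.2, ?_⟩, ?_, ?_⟩
  · have h2 := x.2.2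
    rw [← hP] at h2
    rw [rs, dif_neg h2]
  · intro hx
    rw [← hP] at hx
    have h2 := x.2
    rw [rs, dif_pos hx] at h2
    exact (hσ x.1.1).2 (congrArg Subtype.val h2)
  · intro x
    rfl
  · intro x
    rfl

private lemma cnt {V : Type} [Fintype V] (S : Finset V) (P Q : Pt V → Prop) (hP : ∀ x, P x ↔ x.1 ∈ S)
    (hPQ : ∀ z, Q z ↔ ¬ P z) (j : ℕ) :
    ((prs (Pt V)).filter fun σ => cu σ S = j).card =
      (J {x : Pt V // P x} j).card * (J {x : Pt V // Q x} j).card * j.factorial := by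
  rw [← cntG P Q hPQ j]
  congr 1
  apply Finset.filter_congr
  intro σ hσ
  rw [cuFx σ (mem_prs'.1 hσ) S P hP]

private lemma cardP {V : Type} [Fintype V] (S : Finset V) (P : Pt V → Prop)
    (hP : ∀ x, P x ↔ x.1 ∈ S) :
    Fintype.card {x : Pt V // P x} = 3 * S.card := by
  rw [Fintype.card_subtype]
  have h : (univ.filter fun x : Pt V => P x) = S ×ˢ (univ : Finset (Fin 3)) := by
    ext x
    rw [mem_filter, mem_product, hP]
    simp
  rw [h, Finset.card_product, Finset.card_univ, Fintype.card_fin]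
  ring

private lemma cardQ {V : Type} [Fintype V] (S : Finset V) (P Q : Pt V → Prop)
    (hP : ∀ x, P x ↔ x.1 ∈ S) (hPQ : ∀ z, Q z ↔ ¬ P z) :
    Fintype.card {x : Pt V // Q x} = 3 * Fintype.card V - 3 * S.card := by
  have h1 : Fintype.card {x : Pt V // Q x} = Fintype.card {x : Pt V // ¬ P x} :=
    Fintype.card_congr (Equiv.subtypeEquivRight hPQ)
  rw [h1, Fintype.card_subtype_compl, cardP S P hP, Fintype.card_prod, Fintype.card_fin]
  omega

private lemma II_pos (k : ℕ) : 0 < II k := by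
  rw [II]
  apply Finset.prod_pos
  intro i _
  omega

private lemma one (h1 : S_pr) (m s j : ℕ) (hs : s ≤ m) (S : Finset (Fin (2 * m)))
    (hS : S.card = s) (P Q : Pt (Fin (2 * m)) → Prop) (hP : ∀ x, P x ↔ x.1 ∈ S)
    (hPQ : ∀ z, Q z ↔ ¬ P z) :
    ((prs (Pt (Fin (2 * m)))).filter fun σ => cu σ S = j).card ≤
      (if (3 * s + j) % 2 = 0 then
        ((3 * s).choose j * II ((3 * s - j) / 2)) *
          ((6 * m - 3 * s).choose j * II ((6 * m - 3 * s - j) / 2)) * j.factorial else 0) := by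
  rw [cnt S P Q hP hPQ]
  have a1 := cJ h1 {x : Pt (Fin (2 * m)) // P x} j
  have a2 := cJ h1 {x : Pt (Fin (2 * m)) // Q x} j
  rw [cardP S P hP, hS] at a1
  rw [cardQ S P Q hP hPQ, hS, Fintype.card_fin] at a2
  have e : 3 * (2 * m) - 3 * s = 6 * m - 3 * s := by omega
  rw [e] at a2
  by_cases hp : (3 * s + j) % 2 = 0
  · have hq : (6 * m - 3 * s + j) % 2 = 0 := by omega
    rw [if_pos hp] at a1 ⊢
    rw [if_pos hq] at a2
    exact Nat.mul_le_mul_right _ (Nat.mul_le_mul a1 a2)
  · rw [if_neg hp] at a1 ⊢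
    have a0 : (J {x : Pt (Fin (2 * m)) // P x} j).card = 0 := Nat.le_zero.1 a1
    rw [a0, Nat.zero_mul, Nat.zero_mul]

end KcX

theorem p_Kc (h1 : S_pr) : S_Kc := by
  intro m s j hm hs hj
  have e : ∀ S ∈ powersetCard s (univ : Finset (Fin (2 * m))),
      (((prs (Pt (Fin (2 * m)))).filter fun σ => cu σ S = j).card : ℝ) ≤
      (if (3 * s + j) % 2 = 0 then
        (((3 * s).choose j : ℝ) * (II ((3 * s - j) / 2) : ℝ)) *
          (((6 * m - 3 * s).choose j : ℝ) * (II ((6 * m - 3 * s - j) / 2) : ℝ)) *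
            (j.factorial : ℝ) else 0) := by
    intro S hS
    have h := KcX.one h1 m s j hs S (mem_powersetCard.1 hS).2 (fun x => x.1 ∈ S) (fun x => ¬ x.1 ∈ S)
      (fun _ => Iff.rfl) (fun _ => Iff.rfl)
    by_cases hp : (3 * s + j) % 2 = 0
    · rw [if_pos hp] at h ⊢
      exact_mod_cast h
    · rw [if_neg hp] at h ⊢
      exact_mod_cast h
  refine le_trans (Finset.sum_le_sum e) ?_
  rw [Finset.sum_const, card_powersetCard, Finset.card_univ, Fintype.card_fin, nsmul_eq_mul]
  by_cases hp : (3 * s + j) % 2 = 0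
  · rw [if_pos hp, if_pos hp, TK]
    have hI : (II (3 * m) : ℝ) ≠ 0 := by
      have := KcX.II_pos (3 * m)
      positivity
    rw [div_mul_cancel₀ _ hI]
    apply le_of_eq
    ring
  · rw [if_neg hp, if_neg hp, mul_zero]

end Pool.Agent.ALM
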