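import Pool.Agent.Lib.MP_fc2a59_co.ALM.K.Stm

set_option autoImplicit false

namespace Pool.Agent.ALM

open Finset
open scoped Classical

namespace KdX

lemma adj_iff {V : Type} {σ : Pt V → Pt V} (h : IsPr σ) (hs : Simp σ) (u v : V) :
    (gr σ).Adj u v ↔ ∃ i : Fin 3, (σ (u, i)).1 = v := by
  unfold gr
  rw [SimpleGraph.fromRel_adj]
  constructor
  · rintro ⟨_, h1 | ⟨i, hi⟩⟩
    · exact h1
    · refine ⟨(σ (v, i)).2, ?_⟩
      have : (u, (σ (v, i)).2) = σ (v, i) := by
        rw [← hi]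
      rw [this, (h (v, i)).1]
  · rintro ⟨i, hi⟩
    refine ⟨?_, Or.inl ⟨i, hi⟩⟩
    rintro rfl
    exact hs.1 u i hi

/-- points and ordered pairs of adjacent vertices -/
lemma card_pts {V : Type} [Fintype V] {σ : Pt V → Pt V} (h : IsPr σ) (hs : Simp σ)
    (Q : V → V → Prop) (A : Finset (Pt V)) (B : Finset (V × V))
    (hA : ∀ x, x ∈ A ↔ Q x.1 (σ x).1) (hB : ∀ e, e ∈ B ↔ Q e.1 e.2 ∧ (gr σ).Adj e.1 e.2) :
    A.card = B.card := by
  refine Finset.card_bij (fun x _ => (x.1, (σ x).1)) ?_ ?_ ?_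
  · intro x hx
    rw [hA] at hx
    rw [hB]
    exact ⟨hx, (adj_iff h hs _ _).2 ⟨x.2, rfl⟩⟩
  · rintro ⟨u, i⟩ _ ⟨v, j⟩ _ he
    simp only [Prod.mk.injEq] at he
    obtain ⟨rfl, h2⟩ := he
    rw [hs.2 u i j h2]
  · rintro ⟨u, v⟩ he
    rw [hB] at he
    obtain ⟨i, hi⟩ := (adj_iff h hs _ _).1 he.2
    refine ⟨(u, i), ?_, ?_⟩
    · rw [hA, hi]
      exact he.1
    · simp [hi]

lemma cut_eq {V : Type} [Fintype V] {σ : Pt V → Pt V} (h : IsPr σ) (hs : Simp σ) (S : Finset V) :
    ((Finset.univ ×ˢ Finset.univ).filter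
      (fun e : V × V => e.1 ∈ S ∧ e.2 ∉ S ∧ (gr σ).Adj e.1 e.2)).card = cu σ S := by
  unfold cu
  refine (card_pts h hs (fun u v => u ∈ S ∧ v ∉ S) _ _ ?_ ?_).symm
  · intro x
    simp
  · intro e
    simp [and_assoc]

lemma cu_compl {V : Type} [Fintype V] {σ : Pt V → Pt V} (h : IsPr σ) (S : Finset V) :
    cu σ Sᶜ = cu σ S := by
  unfold cu
  refine Finset.card_bij (fun x _ => σ x) ?_ ?_ ?_
  · intro x hx
    simp only [mem_filter, mem_univ, true_and, mem_compl, not_not] at hx ⊢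
    rw [(h x).1]
    exact ⟨hx.2, hx.1⟩
  · intro x _ y _ he
    have := congrArg σ he
    simpa [(h x).1, (h y).1] using this
  · intro y hy
    simp only [mem_filter, mem_univ, true_and, mem_compl, not_not] at hy ⊢
    refine ⟨σ y, ?_, (h y).1⟩
    rw [(h y).1]
    exact ⟨hy.2, hy.1⟩

/-- points of `S` -/
lemma cu_add {V : Type} [Fintype V] {σ : Pt V → Pt V} (h : IsPr σ) (hs : Simp σ) (S : Finset V) :
    cu σ S + ∑ u ∈ S, ∑ w ∈ S, (if (gr σ).Adj u w then 1 else 0) = 3 * S.card := by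
  have h1 : ∑ u ∈ S, ∑ w ∈ S, (if (gr σ).Adj u w then 1 else 0) =
      (univ.filter fun x : Pt V => x.1 ∈ S ∧ (σ x).1 ∈ S).card := by
    rw [← Finset.sum_product', Finset.sum_boole]
    simp only [Nat.cast_id]
    refine (card_pts h hs (fun u v => u ∈ S ∧ v ∈ S) _ _ ?_ ?_).symm
    · intro x
      simp
    · intro e
      simp
  have h2 : (univ.filter fun x : Pt V => x.1 ∈ S).card = 3 * S.card := by
    have : (univ.filter fun x : Pt V => x.1 ∈ S) = S ×ˢ (univ : Finset (Fin 3)) := by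
      ext x
      simp
    rw [this, Finset.card_product]
    simp [mul_comm]
  rw [h1, ← h2, cu]
  have h3 := Finset.card_filter_add_card_filter_not (s := univ.filter fun x : Pt V => x.1 ∈ S)
    (fun x : Pt V => (σ x).1 ∈ S)
  rw [Finset.filter_filter, Finset.filter_filter] at h3
  omega

lemma sub_cyF {V : Type} {i : ℕ} {σ : Pt V → Pt V} (h : IsPr σ) (v : Fin i → V)
    (a b : Fin i → Fin 3) (hv : ∀ t, σ (v t, b t) = (v (nx t), a (nx t))) :
    Sub (cyF v a b) σ := by
  intro x hx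
  by_cases h1 : ∃ t, x = (v t, b t)
  · have e1 : cyF v a b x = (v (nx h1.choose), a (nx h1.choose)) := by
      rw [cyF, dif_pos h1]
    rw [e1, ← hv, ← h1.choose_spec]
  · by_cases h2 : ∃ t, x = (v (nx t), a (nx t))
    · have e1 : cyF v a b x = (v h2.choose, b h2.choose) := by
        rw [cyF, dif_neg h1, dif_pos h2]
      have e2 : x = σ (v h2.choose, b h2.choose) := by
        rw [hv]
        exact h2.choose_spec
      rw [e1]
      conv_lhs => rw [e2]
      exact (h _).1
    · exact absurd (by rw [cyF, dif_neg h1, dif_neg h2]) hx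

lemma no_tri {V : Type} [Fintype V] {σ : Pt V → Pt V} (h : IsPr σ) (hs : Simp σ)
    (hX : X 3 σ = 0) (u v w : V) (h1 : (gr σ).Adj u v) (h2 : (gr σ).Adj v w)
    (h3 : (gr σ).Adj w u) : False := by
  obtain ⟨b0, hb0⟩ := (adj_iff h hs _ _).1 h1
  obtain ⟨b1, hb1⟩ := (adj_iff h hs _ _).1 h2
  obtain ⟨b2, hb2⟩ := (adj_iff h hs _ _).1 h3
  have e0 : σ (u, b0) = (v, (σ (u, b0)).2) := by
    rw [← hb0]
  have e1 : σ (v, b1) = (w, (σ (v, b1)).2) := by
    rw [← hb1]
  have e2 : σ (w, b2) = (u, (σ (w, b2)).2) := by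
    rw [← hb2]
  set a1 := (σ (u, b0)).2
  set a2 := (σ (v, b1)).2
  set a0 := (σ (w, b2)).2
  have f0 : σ (v, a1) = (u, b0) := by
    rw [← e0]
    exact (h _).1
  have f1 : σ (w, a2) = (v, b1) := by
    rw [← e1]
    exact (h _).1
  have f2 : σ (u, a0) = (w, b2) := by
    rw [← e2]
    exact (h _).1
  have n0 : a0 ≠ b0 := by
    intro he
    have : (σ (u, a0)).1 = (σ (u, b0)).1 := by rw [he]
    rw [f2, e0] at this
    exact h2.ne' this
  have n1 : a1 ≠ b1 := by
    intro he
    have : (σ (v, a1)).1 = (σ (v, b1)).1 := by rw [he]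
    rw [f0, e1] at this
    exact h3.ne' this
  have n2 : a2 ≠ b2 := by
    intro he
    have : (σ (w, a2)).1 = (σ (w, b2)).1 := by rw [he]
    rw [f1, e2] at this
    exact h1.ne' this
  have x0 : nx (0 : Fin 3) = 1 := by decide
  have x1 : nx (1 : Fin 3) = 2 := by decide
  have x2 : nx (2 : Fin 3) = 0 := by decide
  have hsub : Sub (cyF ![u, v, w] ![a0, a1, a2] ![b0, b1, b2]) σ := by
    refine sub_cyF h _ _ _ ?_
    intro t
    fin_cases t
    · simpa [x0] using e0
    · simpa [x1] using e1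
    · simpa [x2] using e2
  have hmem : cyF ![u, v, w] ![a0, a1, a2] ![b0, b1, b2] ∈ cyc V 3 := by
    simp only [cyc, mem_filter, mem_univ, true_and]
    refine ⟨_, _, _, ?_, ?_, rfl⟩
    · intro s t hst
      have q1 := h1.ne
      have q2 := h2.ne
      have q3 := h3.ne
      fin_cases s <;> fin_cases t <;> simp_all
    · intro t
      fin_cases t
      · exact n0
      · exact n1
      · exact n2
  have : cyF ![u, v, w] ![a0, a1, a2] ![b0, b1, b2] ∈ (cyc V 3).filter fun F => Sub F σ := by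
    rw [mem_filter]
    exact ⟨hmem, hsub⟩
  rw [X, Finset.card_eq_zero] at hX
  rw [hX] at this
  exact Finset.notMem_empty _ this

lemma five {V : Type} [Fintype V] {σ : Pt V → Pt V} (h : IsPr σ) (hs : Simp σ)
    (hX : X 3 σ = 0) (S : Finset V) (h2 : 2 ≤ S.card) (hc : cu σ S ≤ 3) : 5 ≤ S.card := by
  by_contra hcon
  have hadd := cu_add h hs S
  set p : V → V → ℕ := fun u w => if (gr σ).Adj u w then 1 else 0 with hp
  have hp0 : ∀ u, p u u = 0 := by
    intro u
    simp [hp]
  have hps : ∀ u w, p u w = p w u := by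
    intro u w
    simp only [hp]
    rw [(gr σ).adj_comm]
  have hp1 : ∀ u w, p u w ≤ 1 := by
    intro u w
    simp only [hp]
    split_ifs <;> omega
  have hpt : ∀ u v w, p u v + p v w + p w u ≤ 2 := by
    intro u v w
    by_contra hh
    have a1 := hp1 u v
    have a2 := hp1 v w
    have a3 := hp1 w u
    have b1 : p u v ≠ 0 := by omega
    have b2 : p v w ≠ 0 := by omega
    have b3 : p w u ≠ 0 := by omega
    simp only [hp] at b1 b2 b3
    simp only [ne_eq, ite_eq_right_iff, one_ne_zero, imp_false, not_not] at b1 b2 b3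
    exact no_tri h hs hX u v w b1 b2 b3
  have hadd' : cu σ S + ∑ u ∈ S, ∑ w ∈ S, p u w = 3 * S.card := hadd
  have hcard : S.card = 2 ∨ S.card = 3 ∨ S.card = 4 := by omega
  rcases hcard with h' | h' | h'
  · obtain ⟨a, b, hab, rfl⟩ := Finset.card_eq_two.1 h'
    rw [Finset.sum_pair hab, Finset.sum_pair hab, Finset.sum_pair hab, h', hp0, hp0] at hadd'
    have := hp1 a b
    have := hp1 b a
    omega
  · obtain ⟨a, b, c, hab, hac, hbc, rfl⟩ := Finset.card_eq_three.1 h'
    have hsum : ∀ f : V → ℕ, ∑ x ∈ ({a, b, c} : Finset V), f x = f a + f b + f c := by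
      intro f
      rw [Finset.sum_insert (by simp [hab, hac]), Finset.sum_pair hbc]
      ring
    simp only [hsum, hp0] at hadd'
    have := hpt a b c
    have := hps a b
    have := hps b c
    have := hps a c
    omega
  · obtain ⟨a, t, hat, rfl, ht⟩ := Finset.card_eq_succ.1 h'
    obtain ⟨b, c, d, hbc, hbd, hcd, rfl⟩ := Finset.card_eq_three.1 ht
    have hsum : ∀ f : V → ℕ, ∑ x ∈ (insert a {b, c, d} : Finset V), f x = f a + f b + f c + f d := by
      intro f
      rw [Finset.sum_insert hat, Finset.sum_insert (by simp [hbc, hbd]), Finset.sum_pair hcd]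
      ring
    simp only [hsum, hp0] at hadd'
    have := hpt a b c
    have := hpt a b d
    have := hpt a c d
    have := hpt b c d
    have := hps a b
    have := hps a c
    have := hps a d
    have := hps b c
    have := hps b d
    have := hps c d
    omega

lemma two_le {V : Type} [Fintype V] (G : SimpleGraph V) (S : Finset V) (v : V) (q : G.Walk v v)
    (hq : q.IsCycle) (hS : ∀ w ∈ q.support, w ∈ S) : 2 ≤ S.card := by
  have h1 : v ∈ S := hS v q.start_mem_support
  have h2 : q.snd ∈ S := hS _ (q.getVert_mem_support 1)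
  have h3 : G.Adj v q.snd := q.adj_snd hq.not_nil
  have : ({v, q.snd} : Finset V) ⊆ S := by
    intro x hx
    simp only [mem_insert, mem_singleton] at hx
    rcases hx with rfl | rfl
    · exact h1
    · exact h2
  calc 2 = ({v, q.snd} : Finset V).card := (Finset.card_pair h3.ne).symm
    _ ≤ S.card := Finset.card_le_card this

end KdX

open KdX in
/-- SMALL CUTS -/
theorem p_Kd : S_Kd := by
  intro V _ σ h hs hX hC
  unfold C4 at hC
  push Not at hC
  obtain ⟨S, ⟨v, q, hq, hqS⟩, ⟨v', q', hq', hqS'⟩, hcard⟩ := hC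
  rw [cut_eq h hs S] at hcard
  have c1 : cu σ S ≤ 3 := by omega
  have c2 : cu σ Sᶜ ≤ 3 := by
    rw [cu_compl h]
    exact c1
  have k1 : 5 ≤ S.card := five h hs hX S (two_le _ S v q hq hqS) c1
  have k2 : 5 ≤ Sᶜ.card := five h hs hX Sᶜ
    (two_le _ Sᶜ v' q' hq' (fun w hw => mem_compl.2 (hqS' w hw))) c2
  have hsum : S.card + Sᶜ.card = Fintype.card V := Finset.card_add_card_compl S
  by_cases hle : 2 * S.card ≤ Fintype.card V
  · exact ⟨S, k1, hle, c1⟩
  · exact ⟨Sᶜ, k2, by omega, c2⟩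

end Pool.Agent.ALM
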