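import Pool.Agent.Lib.MP_fc2a59_co.ALM.K.Stm

set_option autoImplicit false

namespace Pool.Agent.ALM

open Finset
open scoped Classical

namespace KnX

theorem II_succ (n : ℕ) : II (n + 1) = II n * (2 * n + 1) := by
  simp [II, Finset.prod_range_succ]

theorem II_pos (n : ℕ) : 0 < II n := by
  unfold II
  exact Finset.prod_pos fun i _ => by omega

theorem two_fac (n : ℕ) : (2 * n).factorial = 2 ^ n * n.factorial * II n := by
  induction n with
  | zero => simp [II]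
  | succ n ih =>
    rw [II_succ, show 2 * (n + 1) = 2 * n + 1 + 1 by ring, Nat.factorial_succ, Nat.factorial_succ,
      ih, Nat.factorial_succ, pow_succ]
    ring

theorem sq_choose (a b : ℕ) : (a + b).choose a * (a + b).choose a ≤
    (2 * a + 2 * b).choose (2 * a) := by
  have h := Nat.add_choose_eq (a + b) (a + b) (2 * a)
  rw [show a + b + (a + b) = 2 * a + 2 * b by ring] at h
  rw [h]
  exact Finset.single_le_sum (f := fun ij : ℕ × ℕ => (a + b).choose ij.1 * (a + b).choose ij.2)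
    (fun _ _ => Nat.zero_le _) (Finset.HasAntidiagonal.mem_antidiagonal.2 (show (a, a).1 + (a, a).2 = 2 * a by
      simp; ring))

theorem N2 (a b : ℕ) : (a + b).choose a * (II a * II b) ≤ II (a + b) := by
  have h0 : 0 < (a + b).choose a * (2 ^ (a + b) * (a.factorial * b.factorial)) := by
    have := Nat.choose_pos (Nat.le_add_right a b)
    positivity
  refine Nat.le_of_mul_le_mul_left ?_ h0
  have h1 := Nat.add_choose_mul_factorial_mul_factorial a b
  rw [← Nat.choose_symm_add] at h1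
  have h2 := Nat.add_choose_mul_factorial_mul_factorial (2 * a) (2 * b)
  rw [← Nat.choose_symm_add] at h2
  have h3 := two_fac a
  have h4 := two_fac b
  have h5 := two_fac (a + b)
  have h6 := sq_choose a b
  calc (a + b).choose a * (2 ^ (a + b) * (a.factorial * b.factorial)) *
        ((a + b).choose a * (II a * II b))
      = ((a + b).choose a * (a + b).choose a) * ((2 * a).factorial * (2 * b).factorial) := by
        rw [h3, h4, pow_add]; ring
    _ ≤ (2 * a + 2 * b).choose (2 * a) * ((2 * a).factorial * (2 * b).factorial) :=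
        Nat.mul_le_mul_right _ h6
    _ = (2 * (a + b)).factorial := by rw [mul_add, ← h2]; ring
    _ = (a + b).choose a * (2 ^ (a + b) * (a.factorial * b.factorial)) * II (a + b) := by
        rw [h5, ← h1]; ring

theorem N3 (m n : ℕ) (h : m ≤ 2 * n + 1) (j : ℕ) : II n * m ^ j ≤ II (n + j) := by
  induction j with
  | zero => simp
  | succ j ih =>
    rw [← Nat.add_assoc, II_succ, pow_succ, ← mul_assoc]
    exact Nat.mul_le_mul ih (by omega)

theorem cb (k : ℕ) : 2 ^ k ≤ (2 * k).choose k := by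
  rw [← Nat.centralBinom_eq_two_mul_choose]
  induction k with
  | zero => simp
  | succ k ih =>
    have h := Nat.succ_mul_centralBinom_succ k
    refine Nat.le_of_mul_le_mul_left ?_ (Nat.succ_pos k)
    rw [Nat.succ_eq_add_one, h, pow_succ]
    calc (k + 1) * (2 ^ k * 2) ≤ (2 * (2 * k + 1)) * 2 ^ k := by nlinarith [pow_pos (show (0:ℕ) < 2 by norm_num) k]
      _ ≤ 2 * (2 * k + 1) * k.centralBinom := Nat.mul_le_mul_left _ ih

theorem N5 (n k : ℕ) (hk : 1 ≤ k) (h : 2 * k ≤ n) : n * 2 ^ (k - 1) ≤ k * n.choose k := by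
  obtain ⟨k, rfl⟩ : ∃ k', k = k' + 1 := ⟨k - 1, by omega⟩
  obtain ⟨n, rfl⟩ : ∃ n', n = n' + 1 := ⟨n - 1, by omega⟩
  have h1 := Nat.add_one_mul_choose_eq n k
  rw [Nat.add_sub_cancel, mul_comm (k + 1), ← h1]
  exact Nat.mul_le_mul_left _ ((cb k).trans (Nat.choose_le_choose k (by omega)))

theorem N4 (m s j : ℕ) : (3 * s).choose j * ((6 * m - 3 * s).choose j * j.factorial) ≤
    (3 * s) ^ j * (6 * m) ^ j := by
  refine Nat.mul_le_mul (Nat.choose_le_pow _ _) ?_
  rw [mul_comm, ← Nat.descFactorial_eq_factorial_mul_choose]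
  exact (Nat.descFactorial_le_pow _ _).trans (Nat.pow_le_pow_left (Nat.sub_le _ _) _)

theorem N1 (m s j k : ℕ) : (2 * m).choose s * (m - j).choose k ≤
    (2 * m + (m - j)).choose (s + k) := by
  rw [Nat.add_choose_eq]
  exact Finset.single_le_sum (f := fun ij : ℕ × ℕ => (2 * m).choose ij.1 * (m - j).choose ij.2)
    (fun _ _ => Nat.zero_le _) (Finset.HasAntidiagonal.mem_antidiagonal.2 (show (s, k).1 + (s, k).2 = s + k from rfl))

theorem TK_le {m s j : ℕ} (h5 : 5 ≤ s) (hs : s ≤ m) (hj : j < 4) (hp : (3 * s + j) % 2 = 0) :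
    TK m s j ≤ (8 * 18 ^ 3 * (64 / 27)) * ((s : ℝ) ^ 4 * (3 / 4) ^ s) / m := by
  obtain ⟨k, rfl⟩ : ∃ k, s = 2 * k + j := ⟨(s - j) / 2, by omega⟩
  have hk : 1 ≤ k := by omega
  set s := 2 * k + j with hsd
  have ha : (3 * s - j) / 2 = s + k := by omega
  obtain ⟨b, hb⟩ : ∃ b, b = (6 * m - 3 * s - j) / 2 := ⟨_, rfl⟩
  have hab : s + k + b = 2 * m + (m - j) := by omega
  have hab2 : s + k + b + j = 3 * m := by omega
  have hm : 0 < m := by omega
  -- natural number inequality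
  have e1 := N1 m s j k
  rw [← hab] at e1
  have e2 := N2 (s + k) b
  have e3 := N3 m (s + k + b) (by omega) j
  rw [hab2] at e3
  have e4 := N4 m s j
  have e5 := N5 (m - j) k hk (by omega)
  have main : ((2 * m).choose s * (3 * s).choose j * (6 * m - 3 * s).choose j * j.factorial *
      II (s + k) * II b) * (m - j).choose k ≤ (18 * s) ^ j * II (3 * m) := by
    refine Nat.le_of_mul_le_mul_right ?_ (pow_pos hm j)
    calc ((2 * m).choose s * (3 * s).choose j * (6 * m - 3 * s).choose j * j.factorial *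
          II (s + k) * II b) * (m - j).choose k * m ^ j
        = ((3 * s).choose j * ((6 * m - 3 * s).choose j * j.factorial)) *
            (((2 * m).choose s * (m - j).choose k) * (II (s + k) * II b) * m ^ j) := by ring
      _ ≤ ((3 * s) ^ j * (6 * m) ^ j) *
            ((s + k + b).choose (s + k) * (II (s + k) * II b) * m ^ j) := by
          gcongr
      _ ≤ ((3 * s) ^ j * (6 * m) ^ j) * (II (s + k + b) * m ^ j) := by gcongr
      _ ≤ ((3 * s) ^ j * (6 * m) ^ j) * II (3 * m) := by gcongr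
      _ = (18 * s) ^ j * II (3 * m) * m ^ j := by
          rw [← mul_pow, show 3 * s * (6 * m) = 18 * s * m by ring, mul_pow]; ring
  -- reals
  have hII : (0 : ℝ) < (II (3 * m) : ℝ) := by exact_mod_cast II_pos _
  have hch : 0 < (m - j).choose k := Nat.choose_pos (by omega)
  have hchR : (0 : ℝ) < ((m - j).choose k : ℝ) := by exact_mod_cast hch
  have hmR : (0 : ℝ) < (m : ℝ) := by exact_mod_cast hm
  have t1 : TK m s j ≤ (18 * (s : ℝ)) ^ j / ((m - j).choose k : ℝ) := by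
    unfold TK
    rw [ha, ← hb, div_le_div_iff₀ hII hchR]
    exact_mod_cast main
  have t2 : (18 * (s : ℝ)) ^ j ≤ (18 * (s : ℝ)) ^ 3 := by
    apply pow_le_pow_right₀ _ (by omega)
    have : (5 : ℝ) ≤ (s : ℝ) := by exact_mod_cast h5
    linarith
  have t3 : (m : ℝ) * 2 ^ k ≤ 8 * k * ((m - j).choose k : ℝ) := by
    have h6 : m * 2 ^ k ≤ 8 * (k * (m - j).choose k) := by
      calc m * 2 ^ k = m * (2 ^ (k - 1) * 2) := by
            rw [← pow_succ, Nat.sub_add_cancel hk]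
        _ ≤ (4 * (m - j)) * (2 ^ (k - 1) * 2) := Nat.mul_le_mul_right _ (by omega)
        _ = 8 * ((m - j) * 2 ^ (k - 1)) := by ring
        _ ≤ 8 * (k * (m - j).choose k) := Nat.mul_le_mul_left _ e5
    have h7 : ((m * 2 ^ k : ℕ) : ℝ) ≤ ((8 * (k * (m - j).choose k) : ℕ) : ℝ) := by
      exact_mod_cast h6
    push_cast at h7
    linarith
  have t4 : (1 : ℝ) ≤ (64 / 27) * (3 / 4) ^ s * 2 ^ k := by
    have h6 : (3 / 4 : ℝ) ^ s = (9 / 16) ^ k * (3 / 4) ^ j := by
      rw [hsd, pow_add, pow_mul]; norm_num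
    have h7 : (27 / 64 : ℝ) ≤ (3 / 4) ^ j := by
      calc (27 / 64 : ℝ) = (3 / 4) ^ 3 := by norm_num
        _ ≤ (3 / 4) ^ j := pow_le_pow_of_le_one (by norm_num) (by norm_num) (by omega)
    have h8 : (1 : ℝ) ≤ (9 / 16) ^ k * 2 ^ k := by
      rw [← mul_pow]; exact one_le_pow₀ (by norm_num)
    rw [h6]
    calc (1 : ℝ) ≤ (9 / 16) ^ k * 2 ^ k := h8
      _ = (64 / 27) * ((9 / 16) ^ k * 2 ^ k) * (27 / 64) := by ring
      _ ≤ (64 / 27) * ((9 / 16) ^ k * 2 ^ k) * (3 / 4) ^ j := by gcongr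
      _ = 64 / 27 * ((9 / 16) ^ k * (3 / 4) ^ j) * 2 ^ k := by ring
  have hks : (k : ℝ) ≤ (s : ℝ) := by exact_mod_cast (by omega : k ≤ s)
  refine t1.trans ((div_le_div_of_nonneg_right t2 hchR.le).trans ?_)
  rw [div_le_div_iff₀ hchR hmR]
  have hk0 : (0 : ℝ) ≤ (k : ℝ) := Nat.cast_nonneg k
  have hs0 : (0 : ℝ) ≤ (s : ℝ) := Nat.cast_nonneg s
  calc (18 * (s : ℝ)) ^ 3 * m ≤ (18 * (s : ℝ)) ^ 3 * m * (64 / 27 * (3 / 4) ^ s * 2 ^ k) :=
        le_mul_of_one_le_right (by positivity) t4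
    _ = (18 * (s : ℝ)) ^ 3 * (64 / 27) * (3 / 4) ^ s * (m * 2 ^ k) := by ring
    _ ≤ (18 * (s : ℝ)) ^ 3 * (64 / 27) * (3 / 4) ^ s * (8 * k * ((m - j).choose k : ℝ)) := by
        gcongr
    _ ≤ (18 * (s : ℝ)) ^ 3 * (64 / 27) * (3 / 4) ^ s * (8 * s * ((m - j).choose k : ℝ)) := by
        gcongr
    _ = 8 * 18 ^ 3 * (64 / 27) * ((s : ℝ) ^ 4 * (3 / 4) ^ s) * ((m - j).choose k : ℝ) := by ring

end KnX

open KnX

theorem p_Kn : S_Kn := by
  have hsum : Summable fun n : ℕ => (n : ℝ) ^ 4 * (3 / 4 : ℝ) ^ n :=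
    summable_pow_mul_geometric_of_norm_lt_one 4 (by rw [Real.norm_eq_abs, abs_of_pos] <;> norm_num)
  refine ⟨4 * (8 * 18 ^ 3 * (64 / 27)) * ∑' n : ℕ, (n : ℝ) ^ 4 * (3 / 4 : ℝ) ^ n, ?_⟩
  intro m hm
  have hmR : (0 : ℝ) < (m : ℝ) := by exact_mod_cast hm
  have h1 : ∀ s ∈ Icc 5 m, ∑ j ∈ range 4, (if (3 * s + j) % 2 = 0 then TK m s j else 0) ≤
      4 * (8 * 18 ^ 3 * (64 / 27)) / m * ((s : ℝ) ^ 4 * (3 / 4) ^ s) := by
    intro s hs
    rw [Finset.mem_Icc] at hs
    have h2 : ∀ j ∈ range 4, (if (3 * s + j) % 2 = 0 then TK m s j else 0) ≤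
        (8 * 18 ^ 3 * (64 / 27)) * ((s : ℝ) ^ 4 * (3 / 4) ^ s) / m := by
      intro j hj
      split_ifs with hp
      · exact TK_le hs.1 hs.2 (Finset.mem_range.1 hj) hp
      · positivity
    refine (Finset.sum_le_sum h2).trans (le_of_eq ?_)
    rw [Finset.sum_const, Finset.card_range, nsmul_eq_mul]
    push_cast
    ring
  refine (Finset.sum_le_sum h1).trans ?_
  rw [← Finset.mul_sum]
  have h3 : ∑ s ∈ Icc 5 m, (s : ℝ) ^ 4 * (3 / 4 : ℝ) ^ s ≤ ∑' n : ℕ, (n : ℝ) ^ 4 * (3 / 4 : ℝ) ^ n :=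
    hsum.sum_le_tsum _ fun n _ => by positivity
  calc 4 * (8 * 18 ^ 3 * (64 / 27)) / (m : ℝ) * ∑ s ∈ Icc 5 m, (s : ℝ) ^ 4 * (3 / 4 : ℝ) ^ s
      ≤ 4 * (8 * 18 ^ 3 * (64 / 27)) / (m : ℝ) * ∑' n : ℕ, (n : ℝ) ^ 4 * (3 / 4 : ℝ) ^ n := by
        gcongr
    _ = _ := by ring

end Pool.Agent.ALM
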